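import Mathlib

set_option autoImplicit false

namespace Pool.Agent.Results.MP_32269d_co.Counter

def IsStrategy (I : ℕ → List ℝ) : Prop :=
  I 1 = [1] ∧ ∀ i, 1 ≤ i → ∃ (l₁ l₂ : List ℝ) (u v : ℝ), 0 < u ∧ 0 < v ∧
    I i = l₁ ++ (u + v) :: l₂ ∧ I (i + 1) = l₁ ++ u :: v :: l₂

noncomputable def P (y : ℝ) : ℝ := (18 * y - 6 * y ^ 2 + y ^ 3) / 13

def M (t : ℕ) : ℕ := 2 ^ Nat.log 2 t

noncomputable def a (t : ℕ) : ℝ := P ((t + 1) / M t - 1) - P (t / M t - 1)

lemma M1 {t : ℕ} (h : 1 ≤ t) : M t ≤ t := Nat.pow_log_le_self 2 (by omega)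
lemma M2 (t : ℕ) : t < 2 * M t := by
  have := Nat.lt_pow_succ_log_self (show 1 < 2 by norm_num) t
  rw [pow_succ] at this; unfold M; omega
lemma M0 (t : ℕ) : 0 < M t := by unfold M; positivity
lemma M3 {k t : ℕ} (h1 : 2 ^ k ≤ t) (h2 : t < 2 * 2 ^ k) : M t = 2 ^ k := by
  unfold M; rw [Nat.log_eq_of_pow_le_of_lt_pow h1 (by rw [pow_succ]; omega)]
lemma M4 {s t : ℕ} (h1 : M t ≤ s) (h2 : s < 2 * M t) : M s = M t := M3 h1 h2
lemma M5 {s t : ℕ} (h1 : 2 * M t ≤ s) (h2 : s < 4 * M t) : M s = 2 * M t := by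
  have : 2 * M t = 2 ^ (Nat.log 2 t + 1) := by unfold M; ring
  rw [this]; exact M3 (by omega) (by omega)

lemma par {t : ℕ} (h : 1 ≤ t) : ∃ y d : ℝ, 0 < d ∧ d ≤ 1 ∧ 0 ≤ y ∧ y + d ≤ 1 ∧ d = 1 / M t ∧
    y = t / M t - 1 ∧ a t = P (y + d) - P y := by
  have h0 : (1 : ℝ) ≤ M t := by exact_mod_cast M0 t
  have h1 : (M t : ℝ) ≤ t := by exact_mod_cast M1 h
  have h2 : (t : ℝ) + 1 ≤ 2 * M t := by exact_mod_cast M2 t
  refine ⟨_, _, by positivity, by rw [div_le_one (by positivity)]; exact h0, ?_, ?_, rfl, rfl, ?_⟩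
  · rw [sub_nonneg, one_le_div (by positivity)]; exact h1
  · rw [sub_add_eq_add_sub, ← add_div, sub_le_iff_le_add, div_le_iff₀ (by positivity)]; linarith
  · unfold a; congr 2; ring

lemma a_pos {t : ℕ} (h : 1 ≤ t) : 0 < a t := by
  obtain ⟨y, d, h1, h2, h3, h4, -, -, h5⟩ := par h
  rw [h5, show P (y + d) - P y = d * (18 - 12 * y - 6 * d + 3 * y ^ 2 + 3 * y * d + d ^ 2) / 13 by
    unfold P; ring]
  exact div_pos (mul_pos h1 (by nlinarith)) (by norm_num)

lemma a_add {t : ℕ} (h : 1 ≤ t) : a (2 * t) + a (2 * t + 1) = a t := by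
  have h1 := M1 h
  have h2 := M2 t
  have h0 : (M t : ℝ) ≠ 0 := by exact_mod_cast (M0 t).ne'
  unfold a
  rw [M5 (s := 2 * t) (t := t) (by omega) (by omega), M5 (s := 2 * t + 1) (t := t) (by omega) (by omega)]
  push_cast
  rw [show (2 * (t : ℝ) + 1 + 1) / (2 * M t) = (t + 1) / M t by field_simp; ring,
    show (2 * (t : ℝ)) / (2 * M t) = t / M t by field_simp]
  ring

lemma a_anti {t : ℕ} (h : 1 ≤ t) : a (t + 1) ≤ a t := by
  obtain ⟨y, d, h1, h2, h3, h4, e1, e2, h5⟩ := par h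
  obtain ⟨y', d', h1', -, -, h4', e1', e2', h5'⟩ := par (t := t + 1) (by omega)
  have m1 := M1 h
  have m2 := M2 t
  have h0 : (M t : ℝ) ≠ 0 := by exact_mod_cast (M0 t).ne'
  rw [h5, h5']
  rcases eq_or_lt_of_le (Nat.succ_le_of_lt m2) with e | e
  · rw [M5 (t := t) (by omega) (by omega)] at e1' e2'
    have e' : (t : ℝ) = 2 * M t - 1 := by rw [eq_sub_iff_add_eq]; exact_mod_cast e
    obtain rfl : y = 1 - d := by rw [e1, e2, e']; field_simp; ring
    obtain rfl : y' = 0 := by rw [e2']; push_cast; rw [e']; field_simp; ring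
    obtain rfl : d = 2 * d' := by rw [e1, e1']; push_cast; field_simp
    unfold P; nlinarith [mul_pos h1' h1', mul_pos h1' (mul_pos h1' h1')]
  · rw [M4 (t := t) (by omega) (by omega)] at e1' e2'
    obtain rfl : y' = y + d := by rw [e1, e2, e2']; push_cast; ring
    obtain rfl : d = d' := by rw [e1, e1']
    unfold P; nlinarith [mul_pos h1 h1]

lemma a_mono {s t : ℕ} (h : 1 ≤ s) (hst : s ≤ t) : a t ≤ a s := by
  induction t, hst using Nat.le_induction with
  | base => rfl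
  | succ t h1 ih => exact (a_anti (by omega)).trans ih

lemma a_ratio {t : ℕ} (h : 1 ≤ t) : a t ≤ (2 - 4 / 5 / M t) * a (2 * t - 1) := by
  obtain ⟨y, d, h1, h2, h3, h4, e1, e2, h5⟩ := par h
  obtain ⟨y', d', h1', -, h3', -, e1', e2', h5'⟩ := par (t := 2 * t - 1) (by omega)
  have m1 := M1 h
  have m2 := M2 t
  have h0 : (M t : ℝ) ≠ 0 := by exact_mod_cast (M0 t).ne'
  rw [h5, h5', show 4 / 5 / (M t : ℝ) = 4 / 5 * d by rw [e1]; ring]
  rw [Nat.cast_sub (by omega)] at e2'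
  rcases eq_or_lt_of_le m1 with e | e
  · rw [M4 (t := t) (by omega) (by omega)] at e1' e2'
    have e' : (t : ℝ) = M t := by exact_mod_cast e.symm
    obtain rfl : y' = 1 - d := by rw [e1, e2']; push_cast; rw [e']; field_simp; ring
    obtain rfl : y = 0 := by rw [e2]; rw [e']; field_simp; ring
    obtain rfl : d = d' := by rw [e1, e1']
    unfold P; nlinarith [mul_pos h1 h1, mul_pos h1 (mul_pos h1 h1)]
  · rw [M5 (t := t) (by omega) (by omega)] at e1' e2'
    obtain rfl : y = y' + d' := by rw [e2, e2', e1']; push_cast; field_simp; ring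
    obtain rfl : d = 2 * d' := by rw [e1, e1']; push_cast; field_simp
    have : 0 ≤ 9 - 9 / 2 * (y' + d') - 3 / 2 * d' - 2 / 5 * (18 - 12 * (y' + d') + 3 * (y' + d') ^ 2
      + 6 * d' - 3 * (y' + d') * d' + d' ^ 2) := by nlinarith
    unfold P; nlinarith [mul_nonneg (mul_pos h1' h1').le this]

noncomputable def S (t : ℕ) : List ℝ :=
  (List.range' (2 * M t) (2 * (t - M t)) ++ List.range' t (2 * M t - t)).map a

theorem result : ∃ I : ℕ → List ℝ, IsStrategy I ∧ ∀ C : ℝ, ∃ n : ℕ, 1 ≤ n ∧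
    ∀ t, 1 ≤ t → t ≤ n → ∀ x ∈ I t, ∀ y ∈ I t, x / y < 2 - 3 / (2 * n) - C / n ^ 2 := by
  refine ⟨S, ⟨by simp [S, M, a, P]; norm_num, fun t h => ?_⟩, fun C => ?_⟩
  · have m1 := M1 h
    have m2 := M2 t
    refine ⟨(List.range' (2 * M t) (2 * (t - M t))).map a, (List.range' (t + 1) (2 * M t - t - 1)).map a,
      a (2 * t), a (2 * t + 1), a_pos (by omega), a_pos (by omega), ?_, ?_⟩
    · rw [a_add h, S, show 2 * M t - t = 2 * M t - t - 1 + 1 by omega, List.range'_succ]; simp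
    · have e0 : List.range' (2 * M t) (2 * (t - M t) + 1 + 1) =
          List.range' (2 * M t) (2 * (t - M t)) ++ [2 * t, 2 * t + 1] := by
        simp only [List.range'_concat, List.append_assoc]; congr 1; simp; omega
      unfold S
      rcases eq_or_lt_of_le (Nat.succ_le_of_lt m2) with e | e
      · rw [M5 (t := t) (by omega) (by omega), show t + 1 - 2 * M t = 0 by omega,
          show 2 * M t - t - 1 = 0 by omega,
          show 2 * (2 * M t) - (t + 1) = 2 * (t - M t) + 1 + 1 by omega,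
          show t + 1 = 2 * M t from e, e0]
        simp
      · rw [M4 (t := t) (by omega) (by omega),
          show 2 * (t + 1 - M t) = 2 * (t - M t) + 1 + 1 by omega, e0, Nat.sub_sub]
        simp
  obtain ⟨k, hk⟩ := pow_unbounded_of_one_lt (10 * |C| + 20) (show (1 : ℝ) < 2 by norm_num)
  have k1 : 1 ≤ 2 ^ k := Nat.one_le_two_pow
  refine ⟨2 * 2 ^ k - 1, by omega, fun t h1 h2 x hx y hy => ?_⟩
  have m1 := M1 h1
  have m2 := M2 t
  have mem : ∀ x ∈ S t, ∃ s, t ≤ s ∧ s ≤ 2 * t - 1 ∧ x = a s := fun x hx => by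
    simp only [S, List.mem_map, List.mem_append, List.mem_range'_1] at hx
    obtain ⟨s, hs, rfl⟩ := hx
    exact ⟨s, by omega, by omega, rfl⟩
  obtain ⟨i, i1, -, rfl⟩ := mem x hx
  obtain ⟨j, j1, j2, rfl⟩ := mem y hy
  have m3 : M t ≤ 2 ^ k := Nat.pow_le_pow_right (by norm_num)
    (Nat.le_of_lt_succ (Nat.log_lt_of_lt_pow (by omega) (by rw [pow_succ]; omega)))
  have m4 : (M t : ℝ) ≤ 2 ^ k := by exact_mod_cast m3
  have m5 : (1 : ℝ) ≤ M t := by exact_mod_cast M0 t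
  have r1 : a i / a j ≤ 2 - 4 / 5 / M t := by
    rw [div_le_iff₀ (a_pos (by omega))]
    refine (a_mono h1 i1).trans ((a_ratio h1).trans (mul_le_mul_of_nonneg_left
      (a_mono (by omega) j2) ?_))
    rw [sub_nonneg, div_le_iff₀ (by positivity)]; linarith
  have r2 : 4 / 5 / (2 : ℝ) ^ k ≤ 4 / 5 / M t := by gcongr
  rw [Nat.cast_sub (by omega)]
  push_cast
  generalize (2 : ℝ) ^ k = N at *
  have c1 := le_abs_self C
  have c2 := abs_nonneg C
  have n1 : 0 < 2 * N - 1 := by linarith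
  have r3 : 3 / (2 * (2 * N - 1)) + C / (2 * N - 1) ^ 2 < 4 / 5 / N := by
    rw [div_add_div _ _ (by positivity) (by positivity), div_lt_div_iff₀ (by positivity) (by linarith)]
    have : 3 * (2 * N - 1) * N + 2 * C * N < 8 / 5 * (2 * N - 1) ^ 2 := by nlinarith
    nlinarith
  linarith

end Pool.Agent.Results.MP_32269d_co.Counter
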